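import Pool.Agent.Helper69.UW.Defs
import Pool.Agent.Helper49.UG.Cell
import Pool.Agent.Helper24.UG.Win

/-!
# UW: blocks Z1 (`cell`), Z3 (`chain`), for any finite set `Q` of primes (port of Helper49/UG)
-/

set_option autoImplicit false
open MeasureTheory Set Filter Topology Metric
open Pool.Agent.Helper57.Zeta Pool.Agent.Helper57.LH Pool.Agent.Helper57.ED Pool.Agent.Helper54.LG
open Pool.Agent.Helper69.UG (pt XX NR NM WW Mo_diff zeta_an pt_eq sc_re sc_im disc_left)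
open Pool.Agent.Helper49.UG
open Pool.Agent.Helper69.UW

namespace Pool.Agent.Helper66.UW

lemma FF_an (T : ℝ) (Q : Finset ℕ) {s : ℂ} (hs : s ≠ 1) : AnalyticAt ℂ (FF T Q) s :=
  (zeta_an hs).mul ((Mo_diff _ _).analyticAt s)

lemma circ_eq (T : ℝ) (Q : Finset ℕ) (y : ℝ) (k : ℕ) (t : ℝ) :
    circ T Q y k t = Real.circleAverage (fun z => ‖FF T Q z - 1‖) (sc (4 * 2 ^ k) (y / Real.log T) t)
      ((4 * 2 ^ k - 1 / 2) * (y / Real.log T)) := by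
  unfold circ Real.circleAverage circleMap
  rw [smul_eq_mul]
  congr 1
  refine intervalIntegral.integral_congr fun φ _ => ?_
  rw [pt_eq, mul_div_assoc]

lemma disc_eq (T : ℝ) (Q : Finset ℕ) (y : ℝ) (k : ℕ) (t : ℝ) :
    disc (FF T Q) (4 * 2 ^ k) (y / Real.log T) t = circ T Q y k t + 2 * cen T Q y k t := by
  unfold disc cen
  rw [circ_eq, pt_eq]

lemma FF_disc {T y : ℝ} (Q : Finset ℕ) (hT : 3 ≤ T) (hy : 0 < y) (k : ℕ) (hk : 8 * 2 ^ k * y ≤ Real.log T / 4) (t : ℝ) :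
    AnalyticOnNhd ℂ (FF T Q) (closedBall (sc (4 * 2 ^ k) (y / Real.log T) t) ((4 * 2 ^ k - 1 / 2) * (y / Real.log T))) := by
  intro z hz
  apply FF_an
  rintro rfl
  have := (disc_left hT hy k hk t hz).1
  norm_num at this

/-- order of `ζ M` at a zero -/
lemma order_le {T : ℝ} {Q : Finset ℕ} {ρ : ℂ} (hρ : xi ρ = 0) (h : analyticOrderAt (FF T Q) ρ ≠ ⊤) :
    mx ρ ≤ (analyticOrderNatAt (FF T Q) ρ : ℝ) := by
  obtain ⟨h0, h1, -⟩ := xi_eq_zero_iff.mp hρ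
  have hs1 : ρ ≠ 1 := by
    rintro rfl
    simp at h1
  have h2 : analyticOrderAt (FF T Q) ρ = analyticOrderAt riemannZeta ρ + analyticOrderAt (Mo (NM T) (mm T Q)) ρ :=
    analyticOrderAt_mul (zeta_an hs1) ((Mo_diff _ _).analyticAt ρ)
  have h3 : analyticOrderAt xi ρ ≤ analyticOrderAt (FF T Q) ρ := by
    rw [h2, analyticOrderAt_xi h0 h1]
    exact le_self_add
  unfold mx analyticOrderNatAt
  exact_mod_cast ENat.toNat_le_toNat h3 h

/-- Z1: Jensen in one disc -/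
theorem cell {T : ℝ} {Q : Finset ℕ} {y : ℝ} (hT : 3 ≤ T) (hy : 0 < y) (k : ℕ) (hk : 8 * 2 ^ k * y ≤ Real.log T / 4) (t : ℝ) (Z : Finset ZS)
    (hZ : ∀ ρ ∈ Z, y ≤ Real.log T * ((ρ : ℂ).re - 1 / 2) ∧ Real.log T * ((ρ : ℂ).re - 1 / 2) ≤ 2 * y ∧
      |(ρ : ℂ).im - t| ≤ y / Real.log T) (hc : cen T Q y k t ≤ 1 / 2) :
    ∑ ρ ∈ Z, mx ρ ≤ 15 * 2 ^ k * (circ T Q y k t + 2 * cen T Q y k t) := by
  have hL : 0 < Real.log T := Real.log_pos (by linarith)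
  have hw : 0 < y / Real.log T := by positivity
  have h4 : (4:ℝ) ≤ 4 * 2 ^ k := by
    have : (1:ℝ) ≤ 2 ^ k := one_le_pow₀ (by norm_num)
    linarith
  have hF := FF_disc Q hT hy k hk t
  have hc' : ‖FF T Q (sc (4 * 2 ^ k) (y / Real.log T) t) - 1‖ ≤ 1 / 2 := by
    rw [← pt_eq]
    exact hc
  have hmain := one_disc h4 hw hF hc' (Z.map ⟨Subtype.val, Subtype.val_injective⟩) (fun ρ => mx ρ) (by
    rw [Finset.sum_map]
    exact Finset.sum_nonneg fun _ _ => Nat.cast_nonneg _) (by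
    intro ρ hρ
    rw [Finset.mem_map] at hρ
    obtain ⟨ρ', h1, rfl⟩ := hρ
    obtain ⟨h2, h3, h5⟩ := hZ ρ' h1
    simp only [Function.Embedding.coeFn_mk]
    have e1 : y / Real.log T ≤ (ρ' : ℂ).re - 1 / 2 := by
      rw [div_le_iff₀ hL]
      linarith
    have e2 : (ρ' : ℂ).re - 1 / 2 ≤ 2 * (y / Real.log T) := by
      rw [← mul_div_assoc, le_div_iff₀ hL]
      linarith
    refine ⟨e1, by linarith, h5, ?_⟩
    refine order_le ρ'.2 ?_
    have hR : 0 < (4 * 2 ^ k - 1 / 2) * (y / Real.log T) := by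
      apply mul_pos _ hw
      linarith
    have hF' : AnalyticOnNhd ℂ (FF T Q) (closedBall (sc (4 * 2 ^ k) (y / Real.log T) t) |(4 * 2 ^ k - 1 / 2) * (y / Real.log T)|) := by
      rwa [abs_of_pos hR]
    refine order_ne_top_of hF' ?_ ?_
    · intro h0
      rw [h0, zero_sub, norm_neg, norm_one] at hc'
      norm_num at hc'
    · rw [abs_of_pos hR, mem_closedBall, dist_eq_norm]
      have n1 : ‖(ρ' : ℂ) - sc (4 * 2 ^ k) (y / Real.log T) t‖ ^ 2 =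
          (((ρ' : ℂ).re - 1 / 2) - 4 * 2 ^ k * (y / Real.log T)) ^ 2 + ((ρ' : ℂ).im - t) ^ 2 := by
        rw [← Complex.normSq_eq_norm_sq, Complex.normSq_apply, Complex.sub_re, sc_re, Complex.sub_im, sc_im]
        ring
      set w := y / Real.log T with hwdef
      set a : ℝ := 4 * 2 ^ k with hadef
      have n2 : (((ρ' : ℂ).re - 1 / 2) - a * w) ^ 2 ≤ ((a - 1) * w) ^ 2 := by
        apply sq_le_sq'
        · nlinarith
        · nlinarith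
      have n3 : ((ρ' : ℂ).im - t) ^ 2 ≤ w ^ 2 := by
        rw [← sq_abs]
        exact pow_le_pow_left₀ (abs_nonneg _) h5 2
      have n4 : ‖(ρ' : ℂ) - sc a w t‖ ^ 2 ≤ ((a - 1 / 2) * w) ^ 2 := by
        rw [n1, mul_pow] 
        rw [mul_pow] at n2
        have : (a - 1) ^ 2 + 1 ≤ (a - 1 / 2) ^ 2 := by nlinarith
        nlinarith [sq_nonneg w]
      exact (pow_le_pow_iff_left₀ (norm_nonneg _) hR.le two_ne_zero).mp n4)
  rw [Finset.sum_map] at hmain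
  rw [← disc_eq]
  refine hmain.trans (le_of_eq ?_)
  ring

lemma cen_nonneg (T : ℝ) (Q : Finset ℕ) (y : ℝ) (k : ℕ) (t : ℝ) : 0 ≤ cen T Q y k t := norm_nonneg _

lemma circ_nonneg (T : ℝ) (Q : Finset ℕ) (y : ℝ) (k : ℕ) (t : ℝ) : 0 ≤ circ T Q y k t := by
  rw [circ_eq]
  exact Real.circleAverage_nonneg_of_nonneg (fun _ _ => norm_nonneg _)

lemma GY_nonneg (T : ℝ) (Q : Finset ℕ) (y : ℝ) (K : ℕ) (t : ℝ) : 0 ≤ GY T Q y K t := by
  unfold GY
  have h1 := circ_nonneg T Q y 0 t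
  have h2 := cen_nonneg T Q y 0 t
  have h3 : 0 ≤ ∑ k ∈ Finset.Ico 1 K, 15 * 2 ^ k * (circ T Q y k t + 2 * cen T Q y k t) * (2 * cen T Q y (k - 1) t) := by
    refine Finset.sum_nonneg fun k _ => ?_
    have h1 := circ_nonneg T Q y k t
    have h2 := cen_nonneg T Q y k t
    have h3 := cen_nonneg T Q y (k - 1) t
    exact mul_nonneg (mul_nonneg (by positivity) (by linarith)) (by linarith)
  exact add_nonneg (mul_nonneg (by norm_num) (by linarith)) h3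

lemma GY_succ (T : ℝ) (Q : Finset ℕ) (y : ℝ) {K : ℕ} (hK : 1 ≤ K) (t : ℝ) : GY T Q y (K + 1) t =
    GY T Q y K t + 15 * 2 ^ K * (circ T Q y K t + 2 * cen T Q y K t) * (2 * cen T Q y (K - 1) t) := by
  unfold GY
  rw [Finset.sum_Ico_succ_top hK]
  ring

theorem chain_aux {T : ℝ} (hT : 3 ≤ T) {Q : Finset ℕ} {y : ℝ} (hy : 0 < y) (K : ℕ) (hK : 1 ≤ K) (hKy : 4 * 2 ^ K * y ≤ Real.log T / 4)
    (t : ℝ) (Z : Finset ZS)
    (hZ : ∀ ρ ∈ Z, y ≤ Real.log T * ((ρ : ℂ).re - 1 / 2) ∧ Real.log T * ((ρ : ℂ).re - 1 / 2) ≤ 2 * y ∧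
      |(ρ : ℂ).im - t| ≤ y / Real.log T) :
    ∑ ρ ∈ Z, mx ρ ≤ GY T Q y K t + (∑ ρ ∈ Z, mx ρ) * (2 * cen T Q y (K - 1) t) := by
  have hS : 0 ≤ ∑ ρ ∈ Z, mx (ρ : ℂ) := Finset.sum_nonneg fun _ _ => Nat.cast_nonneg _
  induction K, hK using Nat.le_induction with
  | base =>
    by_cases hc : cen T Q y 0 t ≤ 1 / 2
    · have h1 := cell hT hy 0 (by norm_num at hKy ⊢; linarith) t Z hZ hc
      have h2 : GY T Q y 1 t = 15 * (circ T Q y 0 t + 2 * cen T Q y 0 t) := by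
        unfold GY
        simp
      rw [h2]
      have h3 : 0 ≤ (∑ ρ ∈ Z, mx (ρ : ℂ)) * (2 * cen T Q y (1 - 1) t) := by
        have := cen_nonneg T Q y (1 - 1) t
        positivity
      norm_num at h1
      linarith
    · push Not at hc
      have h1 := GY_nonneg T Q y 1 t
      have h2 : 1 ≤ 2 * cen T Q y (1 - 1) t := by
        simp only [Nat.sub_self]
        linarith
      nlinarith
  | succ K hK ih =>
    have hKy' : 4 * 2 ^ K * y ≤ Real.log T / 4 := by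
      rw [pow_succ] at hKy
      have : 0 < 4 * 2 ^ K * y := by positivity
      linarith
    have h0 := ih hKy'
    rw [Nat.add_sub_cancel]
    by_cases hc : cen T Q y K t ≤ 1 / 2
    · have h1 := cell hT hy K (by rw [pow_succ] at hKy; linarith) t Z hZ hc
      rw [GY_succ T Q y hK]
      have h2 : (∑ ρ ∈ Z, mx (ρ : ℂ)) * (2 * cen T Q y (K - 1) t) ≤
          15 * 2 ^ K * (circ T Q y K t + 2 * cen T Q y K t) * (2 * cen T Q y (K - 1) t) :=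
        mul_le_mul_of_nonneg_right h1 (by have := cen_nonneg T Q y (K - 1) t; positivity)
      have h3 : 0 ≤ (∑ ρ ∈ Z, mx (ρ : ℂ)) * (2 * cen T Q y K t) := by
        have := cen_nonneg T Q y K t
        positivity
      linarith
    · push Not at hc
      have h1 := GY_nonneg T Q y (K + 1) t
      have h2 : 1 ≤ 2 * cen T Q y K t := by linarith
      nlinarith

/-- Z3, from Z2 -/
theorem chain_of (triv : ∃ C : ℝ, 0 < C ∧ ∀ (t : ℝ) (Z : Finset ZS), (∀ ρ ∈ Z, |(ρ : ℂ).im - t| ≤ 1) →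
    ∑ ρ ∈ Z, mx ρ ≤ C * Real.log (4 + |t|)) :
    ∃ C : ℝ, 0 < C ∧ ∀ T : ℝ, 3 ≤ T → ∀ (Q : Finset ℕ) (y : ℝ), 0 < y → ∀ K : ℕ, 1 ≤ K → 4 * 2 ^ K * y ≤ Real.log T / 4 →
    ∀ (t : ℝ) (Z : Finset ZS),
    (∀ ρ ∈ Z, y ≤ Real.log T * ((ρ : ℂ).re - 1 / 2) ∧ Real.log T * ((ρ : ℂ).re - 1 / 2) ≤ 2 * y ∧
      |(ρ : ℂ).im - t| ≤ y / Real.log T) →
    ∑ ρ ∈ Z, mx ρ ≤ GY T Q y K t + C * Real.log (4 + |t|) * (2 * cen T Q y (K - 1) t) := by
  obtain ⟨C, hC, h⟩ := triv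
  refine ⟨C, hC, fun T hT Q y hy K hK hKy t Z hZ => ?_⟩
  have hL : 0 < Real.log T := Real.log_pos (by linarith)
  have h1 := chain_aux hT (Q := Q) hy K hK hKy t Z hZ
  have h2 := h t Z (fun ρ hρ => by
    refine (hZ ρ hρ).2.2.trans ?_
    rw [div_le_one hL]
    have : (1:ℝ) ≤ 2 ^ K := one_le_pow₀ (by norm_num)
    nlinarith)
  have h3 : (∑ ρ ∈ Z, mx (ρ : ℂ)) * (2 * cen T Q y (K - 1) t) ≤ C * Real.log (4 + |t|) * (2 * cen T Q y (K - 1) t) :=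
    mul_le_mul_of_nonneg_right h2 (by have := cen_nonneg T Q y (K - 1) t; positivity)
  linarith

/-- Z3: the chain, any `Q` -/
theorem chain : ∃ C : ℝ, 0 < C ∧ ∀ T : ℝ, 3 ≤ T → ∀ (Q : Finset ℕ) (y : ℝ), 0 < y → ∀ K : ℕ, 1 ≤ K →
    4 * 2 ^ K * y ≤ Real.log T / 4 → ∀ (t : ℝ) (Z : Finset ZS),
    (∀ ρ ∈ Z, y ≤ Real.log T * ((ρ : ℂ).re - 1 / 2) ∧ Real.log T * ((ρ : ℂ).re - 1 / 2) ≤ 2 * y ∧
      |(ρ : ℂ).im - t| ≤ y / Real.log T) →
    ∑ ρ ∈ Z, mx ρ ≤ GY T Q y K t + C * Real.log (4 + |t|) * (2 * cen T Q y (K - 1) t) :=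
  chain_of Pool.Agent.Helper24.UG.triv

end Pool.Agent.Helper66.UW
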